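import Pool.Graph.R_pool_sql_team_seeded_3997aac3.Results.MP_6b4821_lc.WeightAlephOne

/-!
# Countably compact groups of weight `ℵ₁` when `𝔭 > ω₁`

`PInt I` says that every family of subsets of `ℕ` indexed by `I`, all of whose finite intersections
are infinite, has an infinite pseudointersection; `PInt Om1` says `𝔭 > ω₁`. It is weaker than
Martin's axiom for `ℵ₁` dense sets. `PInt Om1` implies that all countably compact groups of weight
at most `ℵ₁` are projectively `w`-compact, and that the criterion of Q1 fails.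

Definitions (`CountablyCompact`, `weight`, `WCompact`, `ProjectivelyWCompact`, `Statement`) are
those of the imported library file.
-/

set_option autoImplicit false

open Set Topology Filter
open Cardinal hiding univ

namespace Pool.Agent.Results.MP_6b4821_lc.PseudoIntersection

open Pool.Agent.Helper669.Forcing Pool.Agent.W684 Pool.Agent.W684.FM
open Pool.Agent.Results.MP_6b4821_lc.WeightAlephOne

/-- Every family of subsets of `ℕ`, indexed by `I`, with infinite finite intersections has an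
infinite pseudointersection. -/
def PInt (I : Type) : Prop :=
  ∀ A : I → Set ℕ, (∀ F : Finset I, (⋂ i ∈ F, A i).Infinite) →
    ∃ S : Set ℕ, S.Infinite ∧ ∀ i, (S \ A i).Finite

theorem pInt_of_martin (h : MartinAxiomAleph1) : PInt Om1 := fun A hA =>
  Pool.Agent.Q180.Pseudo.exists_pseudo (κ := Cardinal.aleph 1)
    (Cardinal.aleph0_le_aleph 1) (martinAxiomAleph1_iff.1 h) (I := Om1) (by simp) A hA

/-! ### Spaces -/

/-- In a regular countably compact space of weight at most `#I` the closure of each countable set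
is compact, if `PInt I`. -/
theorem omega_bounded {I : Type} (hP : PInt I) {X : Type} [TopologicalSpace X]
    [RegularSpace X] [T1Space X] (hX : CountablyCompact X) (hw : weight X ≤ #I) {B : Set X}
    (hB : B.Countable) : IsCompact (closure B) := by
  classical
  rcases B.eq_empty_or_nonempty with rfl | hBne
  · rw [closure_empty]
    exact isCompact_empty
  obtain ⟨b, rfl⟩ := hB.exists_eq_range hBne
  refine isCompact_of_finite_subcover fun {ι} U hUo hU => ?_
  by_contra hcon
  obtain ⟨𝓑, h𝓑, h𝓑c⟩ := exists_base X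
  have hcov : ∀ x ∈ closure (range b), ∃ V : {V : Set X // V ∈ 𝓑 ∧ ∃ i, closure V ⊆ U i},
      x ∈ V.1 := by
    intro x hx
    obtain ⟨i, hi⟩ := mem_iUnion.1 (hU hx)
    obtain ⟨C, hC, hCc, hCW⟩ := exists_mem_nhds_isClosed_subset ((hUo i).mem_nhds hi)
    obtain ⟨V, hV, hxV, hVC⟩ := h𝓑.mem_nhds_iff.1 hC
    exact ⟨⟨V, hV, i, (closure_minimal hVC hCc).trans hCW⟩, hxV⟩
  have hne : Nonempty {V : Set X // V ∈ 𝓑 ∧ ∃ i, closure V ⊆ U i} := by
    obtain ⟨V, -⟩ := hcov (b 0) (subset_closure ⟨0, rfl⟩)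
    exact ⟨V⟩
  have hcard : #{V : Set X // V ∈ 𝓑 ∧ ∃ i, closure V ⊆ U i} ≤ #I := by
    refine le_trans ?_ (h𝓑c.le.trans hw)
    exact mk_le_of_injective (f := fun V => (⟨V.1, V.2.1⟩ : 𝓑)) fun V W h => by
      apply Subtype.ext
      exact congrArg (fun Z : 𝓑 => (Z : Set X)) h
  obtain ⟨i⟩ := hcard
  obtain ⟨g, hg⟩ : ∃ g : I → {V : Set X // V ∈ 𝓑 ∧ ∃ i, closure V ⊆ U i},
      Function.Surjective g := ⟨_, Function.invFun_surjective i.injective⟩
  obtain ⟨S, hS, hSA⟩ := hP (fun a => {n | b n ∉ closure (g a).1}) (by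
    intro F
    by_contra hfin
    rw [Set.not_infinite] at hfin
    apply hcon
    have h1 : ∀ a : I, ∃ j, closure (g a).1 ⊆ U j := fun a => (g a).2.2
    choose j hj using h1
    have h2 : ∀ n : ℕ, ∃ j, b n ∈ U j := fun n => mem_iUnion.1 (hU (subset_closure ⟨n, rfl⟩))
    choose k hk using h2
    refine ⟨F.image j ∪ hfin.toFinset.image k, ?_⟩
    have h3 : closure (range b) ⊆ (⋃ a ∈ F, closure (g a).1) ∪ b '' (hfin.toFinset : Set ℕ) := by
      refine closure_minimal ?_ ((isClosed_biUnion_finset fun a _ => isClosed_closure).union ?_)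
      · rintro _ ⟨n, rfl⟩
        by_cases hn : n ∈ ⋂ a ∈ F, {n | b n ∉ closure (g a).1}
        · exact Or.inr ⟨n, by simpa using hn, rfl⟩
        · left
          simp only [mem_iInter, mem_ofPred_eq, not_forall, not_not] at hn
          obtain ⟨a, ha, hn⟩ := hn
          exact mem_iUnion₂.2 ⟨a, ha, hn⟩
      · exact (hfin.toFinset.finite_toSet.image b).isClosed
    intro x hx
    rcases h3 hx with h4 | ⟨n, hn, rfl⟩
    · obtain ⟨a, ha, hxa⟩ := mem_iUnion₂.1 h4
      exact mem_iUnion₂.2 ⟨j a, Finset.mem_union_left _ (Finset.mem_image_of_mem _ ha), hj a hxa⟩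
    · exact mem_iUnion₂.2 ⟨k n, Finset.mem_union_right _ (Finset.mem_image_of_mem _ hn), hk n⟩)
  obtain ⟨x, hx⟩ := exists_cluster hX fun n => b (hS.natEmbedding S n)
  have hxC : x ∈ closure (range b) := by
    by_contra hxC
    obtain ⟨n, hn⟩ := (hx _ isClosed_closure.isOpen_compl hxC).nonempty
    exact hn (subset_closure ⟨_, rfl⟩)
  obtain ⟨V, hV⟩ := hcov x hxC
  obtain ⟨a, rfl⟩ := hg V
  have h5 := hx _ (h𝓑.isOpen (g a).2.1) hV
  refine h5 ?_
  refine Set.Finite.of_finite_image (f := fun n => (hS.natEmbedding S n : ℕ))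
    ((hSA a).subset ?_) ?_
  · rintro _ ⟨n, hn, rfl⟩
    exact ⟨(hS.natEmbedding S n).2, fun h => h (subset_closure hn)⟩
  · intro m _ n _ h
    exact (hS.natEmbedding S).injective (Subtype.ext h)

/-- A point of a regular countably compact space which is the only common point of countably many
members of a closed neighbourhood family is a point of countable character. -/
theorem countable_character {X : Type} [TopologicalSpace X] (hX : CountablyCompact X) (x : X)
    (U : ℕ → Set X) (hU : ∀ n, U n ∈ 𝓝 x) (hUc : ∀ n, IsClosed (U n))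
    (h1 : ∀ y, (∀ n, y ∈ U n) → y = x) : (𝓝 x).IsCountablyGenerated := by
  let W : ℕ → Set X := fun n => ⋂ i ∈ Finset.range (n + 1), U i
  have hW : ∀ n, W n ∈ 𝓝 x := fun n => (Filter.biInter_finset_mem _).2 fun i _ => hU i
  have hWc : ∀ n, IsClosed (W n) := fun n => isClosed_biInter fun i _ => hUc i
  have hWanti : ∀ m n, m ≤ n → W n ⊆ W m := fun m n hmn y hy =>
    mem_iInter₂.2 fun i hi => mem_iInter₂.1 hy i (Finset.mem_range.2 (by
      have := Finset.mem_range.1 hi
      omega))
  have hWU : ∀ n, W n ⊆ U n := fun n y hy => mem_iInter₂.1 hy n (Finset.self_mem_range_succ n)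
  have key : ∀ O ∈ 𝓝 x, ∃ n, W n ⊆ O := by
    intro O hO
    obtain ⟨O', hO', hO'o, hx⟩ := mem_nhds_iff.1 hO
    suffices h : ∃ n, W n ⊆ O' by
      obtain ⟨n, hn⟩ := h
      exact ⟨n, hn.trans hO'⟩
    by_contra! h
    have h2 : ∀ n, ∃ d : X, d ∈ W n ∧ d ∉ O' := fun n => not_subset.1 (h n)
    choose s hs1 hs2 using h2
    obtain ⟨d, hd⟩ := exists_cluster hX s
    have h3 : d = x := by
      refine h1 d fun n => hWU n ?_
      by_contra hdn
      refine hd (W n)ᶜ (hWc n).isOpen_compl hdn ((finite_lt_nat n).subset fun m hm => ?_)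
      by_contra hmn
      exact hm (hWanti n m (not_lt.1 hmn) (hs1 m))
    subst h3
    obtain ⟨n, hn⟩ := (hd _ hO'o hx).nonempty
    exact hs2 n hn
  refine Filter.HasCountableBasis.isCountablyGenerated (p := fun _ : ℕ => True) (s := W)
    ⟨⟨fun O => ⟨fun hO => ?_, ?_⟩⟩, to_countable _⟩
  · obtain ⟨n, hn⟩ := key O hO
    exact ⟨n, trivial, hn⟩
  · rintro ⟨n, -, hn⟩
    exact mem_of_superset (hW n) hn

/-- **Spaces.** If `𝔭 > ω₁`, then in a countably compact regular space of weight at most `ℵ₁` each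
point of uncountable character belongs to a compact set of weight `ℵ₁`. -/
theorem dichotomy (hP : PInt Om1) {X : Type} [TopologicalSpace X] [RegularSpace X] [T1Space X]
    (hX : CountablyCompact X) (hw : weight X ≤ ℵ₁) (x : X) :
    (𝓝 x).IsCountablyGenerated ∨ ∃ K : Set X, IsCompact K ∧ x ∈ K ∧ weight K = ℵ₁ := by
  obtain ⟨U, hU1, hU2⟩ := exists_nhds_base hw x
  by_cases hA : ∃ a : Om1, ∀ y : X, (∀ b ≤ a, y ∈ U b) → y = x
  · left
    obtain ⟨a, ha⟩ := hA
    have hc : (Iic a).Countable := countable_Iic a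
    obtain ⟨e, he⟩ := hc.exists_eq_range ⟨a, mem_Iic.2 le_rfl⟩
    refine countable_character hX x (fun n => U (e n)) (fun n => (hU1 _).1) (fun n => (hU1 _).2)
      fun y hy => ha y fun b hb => ?_
    have hb' : b ∈ range e := he ▸ hb
    obtain ⟨n, rfl⟩ := hb'
    exact hy n
  · right
    push Not at hA
    choose y hy1 hy2 using hA
    set K : Set X := closure (range y) with hK
    have hxK : x ∈ K := by
      refine mem_closure_iff_nhds.2 fun W hW => ?_
      obtain ⟨b, hb⟩ := hU2 W hW
      exact ⟨y b, hb (hy1 b b le_rfl), ⟨b, rfl⟩⟩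
    have hKc : IsCompact K := by
      refine isCompact_of_finite_subcover fun {ι} O hOo hO => ?_
      classical
      obtain ⟨i, hi⟩ := mem_iUnion.1 (hO hxK)
      obtain ⟨b, hb⟩ := hU2 (O i) ((hOo i).mem_nhds hi)
      have h1 : range y ⊆ y '' Iio b ∪ U b := by
        rintro _ ⟨a, rfl⟩
        rcases lt_or_ge a b with h | h
        · exact Or.inl ⟨a, h, rfl⟩
        · exact Or.inr (hy1 a b h)
      have h2 : K ⊆ closure (y '' Iio b) ∪ U b := by
        have := closure_mono h1
        rwa [closure_union, (hU1 b).2.closure_eq] at this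
      have h3 : IsCompact (closure (y '' Iio b)) :=
        omega_bounded hP hX (by rw [mk_om1]; exact hw) ((countable_Iio b).image _)
      obtain ⟨t, ht⟩ := h3.elim_finite_subcover O hOo
        ((closure_mono (image_subset_range _ _)).trans hO)
      refine ⟨insert i t, fun z hz => ?_⟩
      rcases h2 hz with h4 | h4
      · obtain ⟨j, hj, hzj⟩ := mem_iUnion₂.1 (ht h4)
        exact mem_iUnion₂.2 ⟨j, Finset.mem_insert_of_mem hj, hzj⟩
      · exact mem_iUnion₂.2 ⟨i, Finset.mem_insert_self _ _, hb h4⟩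
    refine ⟨K, hKc, hxK, le_antisymm ((weight_subset _).trans hw) ?_⟩
    by_contra! hlt
    obtain ⟨B, hB, hBc⟩ := exists_base K
    rw [← hBc] at hlt
    have hBcount : B.Countable :=
      le_aleph0_iff_set_countable.1 (Cardinal.lt_aleph_one_iff.1 hlt)
    let o : K := ⟨x, hxK⟩
    let z : Om1 → K := fun a => ⟨y a, subset_closure ⟨a, rfl⟩⟩
    have h1 : ∀ O : {O : B // o ∈ (O : Set _)}, ∃ b : Om1, ∀ a, b ≤ a → z a ∈ (O.1 : Set _) := by
      rintro ⟨⟨O, hO⟩, hoO⟩
      obtain ⟨O', hO', rfl⟩ := isOpen_induced_iff.1 (hB.isOpen hO)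
      obtain ⟨b, hb⟩ := hU2 O' (hO'.mem_nhds hoO)
      exact ⟨b, fun a hab => hb (hy1 a b hab)⟩
    choose b hb using h1
    have : Countable {O : B // o ∈ (O : Set _)} := by
      have : Countable B := hBcount.to_subtype
      infer_instance
    obtain ⟨c, hc⟩ := exists_bound b
    have h2 : z c = o := by
      by_contra hne
      obtain ⟨O, hO, hoO, hOz⟩ := hB.exists_subset_of_mem_open
        (show o ∈ ({z c}ᶜ : Set _) from Ne.symm hne) isOpen_compl_singleton
      exact hOz (hb ⟨⟨O, hO⟩, hoO⟩ c (hc _)) rfl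
    exact hy2 c (congrArg Subtype.val h2)

/-! ### Groups -/

section Group

variable {H : Type} [Group H] [TopologicalSpace H] [IsTopologicalGroup H]

/-- A countably compact group is covered by finitely many translates of a neighbourhood of the
identity. -/
theorem precompact (hH : CountablyCompact H) {W : Set H} (hW : W ∈ 𝓝 (1 : H)) :
    ∃ F : Finset H, ∀ d : H, ∃ c ∈ F, c⁻¹ * d ∈ W := by
  classical
  by_contra! hcon
  obtain ⟨V, hV, hVW⟩ := exists_nhds_split_inv hW
  have hex : ∀ F : Finset H, ∃ d : H, ∀ c ∈ F, c⁻¹ * d ∉ W := hcon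
  choose g hg using hex
  -- a sequence with `(s i)⁻¹ * s j ∉ W` for `i < j`
  let T : ℕ → Finset H := fun n => Nat.rec ∅ (fun _ F => insert (g F) F) n
  have hT : ∀ n, T (n + 1) = insert (g (T n)) (T n) := fun n => rfl
  have hTm : Monotone T := monotone_nat_of_le_succ fun n => by
    rw [hT]
    exact Finset.subset_insert _ _
  let s : ℕ → H := fun n => g (T n)
  have hs : ∀ i j, i < j → (s i)⁻¹ * s j ∉ W := by
    intro i j hij
    refine hg (T j) (s i) (hTm (Nat.succ_le_of_lt hij) ?_)
    rw [Nat.succ_eq_add_one, hT]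
    exact Finset.mem_insert_self _ _
  obtain ⟨d, hd⟩ := exists_cluster hH s
  have hO : {y : H | (d⁻¹ * y)⁻¹ ∈ V} ∈ 𝓝 d := by
    have h1 : Tendsto (fun y : H => (d⁻¹ * y)⁻¹) (𝓝 d) (𝓝 1) := by
      have : (1 : H) = (d⁻¹ * d)⁻¹ := by simp
      rw [this]
      exact (continuous_const.mul continuous_id).inv.continuousAt
    exact h1 hV
  obtain ⟨O, hOV, hOo, hdO⟩ := mem_nhds_iff.1 hO
  have hinf := hd O hOo hdO
  obtain ⟨i, hi⟩ := hinf.nonempty
  obtain ⟨j, hj, hij⟩ := hinf.exists_gt i
  have h1 := hVW _ (hOV hi) _ (hOV hj)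
  have h2 : (d⁻¹ * s i)⁻¹ / (d⁻¹ * s j)⁻¹ = (s i)⁻¹ * s j := by
    simp [div_eq_mul_inv, mul_assoc]
  rw [h2] at h1
  exact hs i j hij h1

variable {L : Type} [Group L] [TopologicalSpace L] [IsTopologicalGroup L]

/-- The closures of the images of neighbourhoods of the identity are neighbourhoods of the
identity. -/
theorem closure_image_mem' (hH : CountablyCompact H) (f : H →* L)
    (hf : Function.Surjective f) {W : Set H} (hW : W ∈ 𝓝 (1 : H)) :
    closure (f '' W) ∈ 𝓝 (1 : L) := by
  obtain ⟨V, hV, hVW⟩ := exists_nhds_split_inv hW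
  set A := closure (f '' V) with hA
  obtain ⟨F, hF⟩ := precompact hH hV
  have hcover : (⋃ c ∈ F, (fun y => (f c)⁻¹ * y) ⁻¹' A) = univ := by
    refine eq_univ_of_forall fun y => ?_
    obtain ⟨d, rfl⟩ := hf y
    obtain ⟨c, hc, hcd⟩ := hF d
    refine mem_iUnion₂.2 ⟨c, hc, subset_closure ⟨c⁻¹ * d, hcd, ?_⟩⟩
    simp
  obtain ⟨c, hc, hint⟩ : ∃ c ∈ F, (interior ((fun y => (f c)⁻¹ * y) ⁻¹' A)).Nonempty := by
    by_contra! h
    have h1 := interior_biUnion F (fun c => (fun y => (f c)⁻¹ * y) ⁻¹' A)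
      (fun c _ => isClosed_closure.preimage (by fun_prop)) h
    rw [hcover, interior_univ] at h1
    exact univ_nonempty.ne_empty h1
  obtain ⟨z, hz⟩ := hint
  have hz' : z ∈ (fun y => (f c)⁻¹ * y) ⁻¹' A := interior_subset hz
  have hz' : (f c)⁻¹ * z ∈ A := hz'
  have h1 : (fun y => y * z) ⁻¹' interior ((fun y => (f c)⁻¹ * y) ⁻¹' A) ∈ 𝓝 (1 : L) := by
    have h0 : (1 : L) * z ∈ interior ((fun y => (f c)⁻¹ * y) ⁻¹' A) := by
      rw [one_mul]
      exact hz
    exact (isOpen_interior.preimage (by fun_prop)).mem_nhds h0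
  have h2 : (fun y => (f c) * y * (f c)⁻¹) ⁻¹'
      ((fun y => y * z) ⁻¹' interior ((fun y => (f c)⁻¹ * y) ⁻¹' A)) ∈ 𝓝 (1 : L) := by
    have h3 : Tendsto (fun y => (f c) * y * (f c)⁻¹) (𝓝 (1 : L)) (𝓝 1) := by
      have : Continuous fun y => (f c) * y * (f c)⁻¹ := by fun_prop
      have h4 := this.tendsto 1
      simpa using h4
    exact h3 h1
  refine mem_of_superset h2 fun y hy => ?_
  have hy0 : f c * y * (f c)⁻¹ * z ∈ interior ((fun y => (f c)⁻¹ * y) ⁻¹' A) := hy
  have hy0 : f c * y * (f c)⁻¹ * z ∈ (fun y => (f c)⁻¹ * y) ⁻¹' A := interior_subset hy0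
  have hy1 : (f c)⁻¹ * (f c * y * (f c)⁻¹ * z) ∈ A := hy0
  have hy2 : y = (f c)⁻¹ * (f c * y * (f c)⁻¹ * z) / ((f c)⁻¹ * z) := by
    simp [div_eq_mul_inv, mul_assoc]
  rw [hy2]
  refine map_mem_closure₂ (f := fun a b : L => a / b) (by fun_prop) hy1 hz' ?_
  rintro _ ⟨d, hd, rfl⟩ _ ⟨d', hd', rfl⟩
  exact ⟨d / d', hVW _ hd _ hd', by simp⟩

/-- The weight of a continuous homomorphic image of a countably compact group. -/
theorem weight_image' (hH : CountablyCompact H) (hw : weight H ≤ ℵ₁) (f : H →* L)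
    (hfc : Continuous f) (hf : Function.Surjective f) : weight L ≤ ℵ₁ := by
  obtain ⟨U, hU1, hU2⟩ := exists_nhds_base hw (1 : H)
  obtain ⟨S, hSc, hSd⟩ : ∃ S : Set L, #S ≤ ℵ₁ ∧ Dense S := by
    obtain ⟨B, hB, hBc⟩ := exists_base H
    have hBc' : #B ≤ ℵ₁ := hBc.le.trans hw
    classical
    let c : B → L := fun V => if h : (V : Set H).Nonempty then f h.some else 1
    refine ⟨range c, mk_range_le.trans hBc', ?_⟩
    refine dense_iff_inter_open.2 fun O hO ⟨y, hy⟩ => ?_
    obtain ⟨d, rfl⟩ := hf y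
    obtain ⟨V, hV, hdV, hVO⟩ := hB.exists_subset_of_mem_open (mem_preimage.2 hy)
      (hO.preimage hfc)
    have hne : V.Nonempty := ⟨d, hdV⟩
    refine ⟨f hne.some, hVO hne.some_mem, ⟨⟨V, hV⟩, ?_⟩⟩
    show (if h : V.Nonempty then f h.some else 1) = f hne.some
    exact dif_pos hne
  let N : Om1 → Set L := fun a => closure (f '' U a)
  have hN : ∀ a, N a ∈ 𝓝 (1 : L) := fun a => closure_image_mem' hH f hf (hU1 a).1
  have hN' : ∀ O ∈ 𝓝 (1 : L), ∃ a, N a ⊆ O := by
    intro O hO
    obtain ⟨C, hC, hCc, hCO⟩ := exists_mem_nhds_isClosed_subset hO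
    have h1 : f ⁻¹' C ∈ 𝓝 (1 : H) := hfc.continuousAt (by rwa [map_one])
    obtain ⟨a, ha⟩ := hU2 _ h1
    refine ⟨a, (closure_minimal ?_ hCc).trans hCO⟩
    rintro _ ⟨d, hd, rfl⟩
    exact ha hd
  let B : Set (Set L) := range fun q : S × Om1 => (fun y => (q.1 : L)⁻¹ * y) ⁻¹' interior (N q.2)
  have hBbase : TopologicalSpace.IsTopologicalBasis B := by
    refine TopologicalSpace.isTopologicalBasis_of_isOpen_of_nhds ?_ ?_
    · rintro _ ⟨q, rfl⟩
      exact isOpen_interior.preimage (by fun_prop)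
    · intro x O hx hO
      have h1 : (fun y => x * y) ⁻¹' O ∈ 𝓝 (1 : L) := by
        refine (hO.preimage (by fun_prop)).mem_nhds ?_
        show x * 1 ∈ O
        rwa [mul_one]
      obtain ⟨P, hP, hPO⟩ := exists_nhds_split_inv h1
      obtain ⟨a, ha⟩ := hN' P⁻¹ (inv_mem_nhds_one L hP)
      obtain ⟨s, hs1, hs2⟩ := dense_iff_inter_open.1 hSd
        ((fun y => y⁻¹ * x) ⁻¹' interior (N a))
        (isOpen_interior.preimage (by fun_prop)) ⟨x, by
          show x⁻¹ * x ∈ interior (N a)
          rw [inv_mul_cancel]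
          exact mem_interior_iff_mem_nhds.2 (hN a)⟩
      refine ⟨_, ⟨(⟨s, hs2⟩, a), rfl⟩, hs1, fun y hy => ?_⟩
      have h2 : (s⁻¹ * x)⁻¹ ∈ P := by
        have := ha (interior_subset hs1)
        simpa using this
      have h3 : (s⁻¹ * y)⁻¹ ∈ P := by
        have := ha (interior_subset hy)
        simpa using this
      have h4 : x * ((s⁻¹ * x)⁻¹ / (s⁻¹ * y)⁻¹) ∈ O := hPO _ h2 _ h3
      have h5 : x * ((s⁻¹ * x)⁻¹ / (s⁻¹ * y)⁻¹) = y := by
        simp [div_eq_mul_inv]
      rwa [h5] at h4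
  refine (weight_le hBbase).trans (mk_range_le.trans ?_)
  rw [mk_prod, lift_id, lift_id]
  have : #Om1 = ℵ₁ := by simp
  rw [this]
  exact (mul_le_mul' hSc le_rfl).trans (mul_eq_self (aleph0_le_aleph 1)).le

omit [Group H] [IsTopologicalGroup H] [Group L] [IsTopologicalGroup L] in
theorem cc_image (hH : CountablyCompact H) (f : H → L) (hfc : Continuous f)
    (hf : Function.Surjective f) : CountablyCompact L := by
  intro U hU hcov
  obtain ⟨t, ht⟩ := hH (fun n => f ⁻¹' U n) (fun n => (hU n).preimage hfc) (by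
    rw [← preimage_iUnion, hcov, preimage_univ])
  refine ⟨t, eq_univ_of_forall fun y => ?_⟩
  obtain ⟨d, rfl⟩ := hf y
  have : d ∈ ⋃ n ∈ t, f ⁻¹' U n := ht ▸ mem_univ d
  simpa using this

/-- A countably compact group with a point of countable character is compact. -/
theorem compact_of_countable (hL : CountablyCompact L) (hcg : (𝓝 (1 : L)).IsCountablyGenerated) :
    IsCompact (univ : Set L) := by
  let _ : UniformSpace L := IsTopologicalGroup.rightUniformSpace L
  have : (uniformity L).IsCountablyGenerated := by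
    rw [uniformity_eq_comap_nhds_one' L]
    infer_instance
  refine IsSeqCompact.isCompact fun y _ => ?_
  obtain ⟨d, hd⟩ := exists_cluster hL y
  have h2 : MapClusterPt d atTop y := by
    rw [mapClusterPt_iff_frequently]
    intro O hO
    obtain ⟨O', hO', hO'o, hd'⟩ := mem_nhds_iff.1 hO
    rw [Nat.frequently_atTop_iff_infinite]
    exact (hd O' hO'o hd').mono fun n hn => hO' hn
  obtain ⟨ψ, hψ, hψ'⟩ := MapClusterPt.tendsto_subseq h2
  exact ⟨d, mem_univ _, ψ, hψ, hψ'⟩

/-- `𝔭 > ω₁`: every countably compact group of weight at most `ℵ₁` is `w`-compact. -/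
theorem wCompact (hP : PInt Om1) [T2Space L] (hL : CountablyCompact L) (hw : weight L ≤ ℵ₁) :
    WCompact L := by
  rcases dichotomy hP hL hw (1 : L) with h | ⟨K, hK, -, hKw⟩
  · exact wCompact_of_compact (compact_of_countable hL h)
  · exact ⟨K, hK, le_antisymm (weight_subset _) (hw.trans hKw.ge)⟩

/-- `𝔭 > ω₁`: every countably compact group of weight at most `ℵ₁` is projectively `w`-compact. -/
theorem projectively (hP : PInt Om1) (hH : CountablyCompact H) (hw : weight H ≤ ℵ₁) :
    ProjectivelyWCompact H := fun _ _ _ _ _ f hfc hf =>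
  wCompact hP (cc_image hH f hfc hf) (weight_image' hH hw f hfc hf)

end Group

theorem not_metrizable_of_weight {X : Type} [TopologicalSpace X] [CompactSpace X]
    (hw : weight X = ℵ₁) : ¬ TopologicalSpace.MetrizableSpace X := by
  intro h
  let _ : MetricSpace X := TopologicalSpace.metrizableSpaceMetric X
  have h1 : weight X ≤ ℵ₀ := (weight_le (TopologicalSpace.isBasis_countableBasis X)).trans
    (le_aleph0_iff_set_countable.2 (TopologicalSpace.countable_countableBasis X))
  rw [hw] at h1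
  exact absurd h1 (not_le.2 aleph0_lt_aleph_one)

/-- (1) Some notion of forcing preserves `ω₁` and forces Martin's axiom for `ℵ₁` dense sets, which
implies `PInt Om1` (that is, `𝔭 > ω₁`). (2)-(5) are consequences of `PInt Om1` alone: (2) the
criterion of Q1 fails; (3) every compact group of weight `ℵ₁` is non-metrizable, but all its
countably compact subgroups are projectively `w`-compact; (4) every countably compact
topological group of weight at most `ℵ₁` is projectively `w`-compact; (5) in a countably compact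
regular space of weight at most `ℵ₁` each countable set has compact closure and each point of
uncountable character is in a compact set of weight `ℵ₁`. (6) The first part of (5) holds for
weight at most `#I` if `PInt I`. -/
theorem result :
    ((∃ (P : Type) (_ : Preorder P), Nonempty P ∧ ∀ p : P,
      p ∈ OmegaOnePreserved P ∧ p ∈ MartinHolds P Om1) ∧ (MartinFor Om1 → PInt Om1)) ∧
    (PInt Om1 → ¬ Statement) ∧
    (PInt Om1 → ∀ (G : Type) [Group G] [TopologicalSpace G] [IsTopologicalGroup G]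
      [CompactSpace G] [T2Space G], weight G = ℵ₁ →
      ¬ TopologicalSpace.MetrizableSpace G ∧
        ∀ D : Subgroup G, CountablyCompact D → ProjectivelyWCompact D) ∧
    (PInt Om1 → ∀ (H : Type) [Group H] [TopologicalSpace H] [IsTopologicalGroup H],
      CountablyCompact H → weight H ≤ ℵ₁ → ProjectivelyWCompact H) ∧
    (PInt Om1 → ∀ (X : Type) [TopologicalSpace X] [RegularSpace X] [T1Space X],
      CountablyCompact X → weight X ≤ ℵ₁ →
        (∀ B : Set X, B.Countable → IsCompact (closure B)) ∧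
        ∀ x : X, (𝓝 x).IsCountablyGenerated ∨
          ∃ K : Set X, IsCompact K ∧ x ∈ K ∧ weight K = ℵ₁) ∧
    (∀ I : Type, PInt I → ∀ (X : Type) [TopologicalSpace X] [RegularSpace X] [T1Space X],
      CountablyCompact X → weight X ≤ #I →
        ∀ B : Set X, B.Countable → IsCompact (closure B)) := by
  refine ⟨⟨?_, fun h => pInt_of_martin (martinFor_om1_iff.1 h)⟩, fun hP h => ?_,
    fun hP G _ _ _ _ _ hw => ⟨not_metrizable_of_weight hw, fun D hD => ?_⟩,
    fun hP H _ _ _ hH hw => projectively hP hH hw,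
    fun hP X _ _ _ hX hw => ⟨fun B hB => ?_, dichotomy hP hX hw⟩,
    fun I hP X _ _ _ hX hw B hB => omega_bounded hP hX hw hB⟩
  · obtain ⟨P, hP, hne, h⟩ := Pool.Agent.W684.FM.exists_forcing Om1
    exact ⟨P, hP, hne, fun p => (h p).2⟩
  · exact not_metrizable (h (Om1 → Z2) fun D _ hD =>
      projectively hP hD ((weight_subset _).trans weight_pi))
  · exact projectively hP hD ((weight_subset _).trans hw.le)
  · exact omega_bounded hP hX (by rw [mk_om1]; exact hw) hB

end Pool.Agent.Results.MP_6b4821_lc.PseudoIntersection
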